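import Mathlib
import Pool.Agent.H29.SliceDefs
import Pool.Agent.H29.Slice

set_option autoImplicit false

namespace Pool.Agent.Results.MP_f1e34e_co.Bounded

open Pool.Agent.H29.Slice Module

theorem boundF {F : Type} [Field F] {d : ℕ} {n : Fin d → ℕ}
    (T : (∀ j, Fin (n j)) → F) (k N : ℕ) (r : Fin N → Fin d → ℕ) (hr : ∀ i j, r i j ≤ k)
    (a : Fin N → ∀ j, ℕ → Fin (n j) → F) (h : ∀ i, ∃ b, IsDec T (r i) (a i) b) (j : Fin d)
    (u : Fin N → Fin (n j) → F) (hu : ∀ i i', i' < i → ∀ s, s < r i' j → a i' j s ⬝ᵥ u i = 0)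
    (w : Fin N → ∀ j, Fin (n j) → F) (hw : ∀ i, Phi T (w i) ≠ 0 ∧ w i j = u i ∧
      ∀ l, l ≠ j → ∀ s, s < r i l → a i l s ⬝ᵥ w i l = 0) : N ≤ (k + 1) ^ d := by
  let f := algebraMap F (AlgebraicClosure F)
  have hd : ∀ (m : ℕ) (x y : Fin m → F), x ⬝ᵥ y = 0 → (f ∘ x) ⬝ᵥ (f ∘ y) = 0 := fun m x y e => by
    rw [← RingHom.map_dotProduct, e, map_zero]
  refine bound (f ∘ T) k N r hr (fun i l s => f ∘ a i l s) (fun i => ?_) j (fun i => f ∘ u i)
    (fun i i' e s hs => hd _ _ _ (hu i i' e s hs)) (fun i l => f ∘ w i l)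
    (fun i => ⟨?_, by rw [(hw i).2.1], fun l hl s hs => hd _ _ _ ((hw i).2.2 l hl s hs)⟩)
  · obtain ⟨b, hb⟩ := h i
    exact ⟨fun l s => f ∘ b l s, fun x => by simp [hb x]⟩
  · have : Phi (f ∘ T) (fun l => f ∘ w i l) = f (Phi T (w i)) := by simp [Phi]
    rw [this]
    exact (map_ne_zero f).mpr (hw i).1

theorem result : ∀ d k : ℕ, 3 ≤ d → 1 ≤ k → ∃ C : ℕ, 0 < C ∧
    ∀ (F : Type) [Field F] (n : Fin d → ℕ), (∀ j, 0 < n j) → ∀ T : (∀ j, Fin (n j)) → F,
      sliceRank T = k → ∃ A : ∀ j, Submodule F (Fin (n j) → F), (∀ j, finrank F (A j) ≤ C) ∧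
        ∀ r a b, IsDec T r a b → ∑ j, r j = k →
          ∀ j, Submodule.span F (a j '' Set.Iio (r j)) ≤ A j := by
  intro d k _ hk
  refine ⟨k * (k + 1) ^ d, by positivity, fun F _ n _ T hT => ?_⟩
  classical
  let D := {p : (Fin d → ℕ) × (∀ j, ℕ → Fin (n j) → F) // (∃ b, IsDec T p.1 p.2 b) ∧
    ∑ j, p.1 j = k}
  let S : ∀ j, D → Submodule F (Fin (n j) → F) := fun j p =>
    Submodule.span F (p.1.2 j '' Set.Iio (p.1.1 j))
  refine ⟨fun j => ⨆ p, S j p, fun j => ?_,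
    fun r a b h1 h2 j => le_iSup (S j) ⟨(r, a), ⟨b, h1⟩, h2⟩⟩
  have hr : ∀ (p : D) l, p.1.1 l ≤ k := fun p l =>
    (Finset.single_le_sum (fun _ _ => Nat.zero_le _) (Finset.mem_univ l)).trans p.2.2.le
  have hS : ∀ p, finrank F (S j p) ≤ k := fun p => by
    have h1 := finrank_span_finset_le_card (R := F) ((Finset.range (p.1.1 j)).image (p.1.2 j))
    rw [Finset.coe_image, Finset.coe_range] at h1
    exact h1.trans (Finset.card_image_le.trans (by simpa using hr p j))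
  by_contra hc
  have hne : Nonempty D := by
    by_contra he
    rw [not_nonempty_iff] at he
    apply hc
    beta_reduce
    rw [iSup_of_empty, finrank_bot]
    exact Nat.zero_le _
  have nxt : ∀ B : Submodule F (Fin (n j) → F), ∃ p : D,
      finrank F B ≤ k * (k + 1) ^ d → ¬ S j p ≤ B := by
    intro B
    by_contra h
    push Not at h
    exact hc ((Submodule.finrank_mono (iSup_le fun p => (h p).2)).trans (h hne.some).1)
  choose nx hnx using nxt
  let B : ℕ → Submodule F (Fin (n j) → F) := fun i => (fun B => B ⊔ S j (nx B))^[i] ⊥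
  have hB : ∀ i, B (i + 1) = B i ⊔ S j (nx (B i)) := fun i => Function.iterate_succ_apply' _ _ _
  have hB1 : ∀ i, finrank F (B i) ≤ k * i := by
    intro i
    induction i with
    | zero => exact (finrank_bot F _).le
    | succ i ih =>
      have h1 := Submodule.finrank_add_le_finrank_add_finrank (B i) (S j (nx (B i)))
      have h2 := hS (nx (B i))
      rw [hB]
      linarith
  have hB2 : Monotone B := monotone_nat_of_le_succ fun i => by rw [hB]; exact le_sup_left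
  have key : ∀ i : Fin ((k + 1) ^ d + 1), ∃ u : Fin (n j) → F, (∀ v ∈ B i, v ⬝ᵥ u = 0) ∧
      ∃ s, s < (nx (B i)).1.1 j ∧ (nx (B i)).1.2 j s ⬝ᵥ u ≠ 0 := by
    intro i
    have h1 := hnx (B i) ((hB1 i).trans (Nat.mul_le_mul_left _ (Nat.lt_succ_iff.mp i.2)))
    rw [Submodule.span_le, Set.not_subset] at h1
    obtain ⟨_, ⟨s, hs, rfl⟩, h2⟩ := h1
    obtain ⟨g, g1, g2⟩ := (B i).exists_dual_map_eq_bot_of_notMem h2 inferInstance
    have h3 : ∀ v, v ⬝ᵥ (fun y => g (Pi.single y 1)) = g v := fun v => by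
      rw [LinearMap.pi_apply_eq_sum_univ g v]
      refine Finset.sum_congr rfl fun y _ => ?_
      rw [smul_eq_mul]
      exact congrArg (fun t => v y * g t) (funext fun z => by simp [Pi.single_apply, eq_comm])
    refine ⟨fun y => g (Pi.single y 1), fun v hv => ?_, s, hs, by rwa [h3]⟩
    rw [h3, ← Submodule.mem_bot F, ← g2]
    exact Submodule.mem_map_of_mem hv
  choose u hu1 s hs1 hs2 using key
  choose w hw using fun i : Fin ((k + 1) ^ d + 1) => nonvanish (nx (B i)).2.1.choose_spec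
    ((nx (B i)).2.2.trans hT.symm) j (u i) (s i) (hs1 i) (hs2 i)
  have := boundF T k _ (fun i => (nx (B i)).1.1) (fun i => hr _) (fun i => (nx (B i)).1.2)
    (fun i => (nx (B i)).2.1) j u (fun i i' e t ht => hu1 i _ (hB2 (show i'.val + 1 ≤ i.val from e)
      (by rw [hB]; exact Submodule.mem_sup_right (Submodule.subset_span ⟨t, ht, rfl⟩)))) w hw
  omega

end Pool.Agent.Results.MP_f1e34e_co.Bounded
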